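import Pool.Agent.Lib.MP_f0067e_co.Main

/-!
# MP_f0067e_co: two explicit measures on the plane without a fair iterated partition into six parts
-/

set_option autoImplicit false

open MeasureTheory

namespace Pool.Agent.Results.MP_f0067e_co.SixParts

/-- Iterated hyperplane partitions of `ℝ^d`, exactly as in the question: `(ℝ^d)` is one; if `K` and `K'` are
iterated partitions of the whole space and `H = {x | ⟪v, x⟫ = c}`, `v ≠ 0`, is a hyperplane with closed
half-spaces `H⁻ = {x | ⟪v, x⟫ ≤ c}`, `H⁺ = {x | c ≤ ⟪v, x⟫}`, then the sets `H⁻ ∩ K_i` followed by the sets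
`H⁺ ∩ K'_j` form one. -/
inductive IterPart (d : ℕ) : List (Set (EuclideanSpace ℝ (Fin d))) → Prop
  | one : IterPart d [Set.univ]
  | cut (K K' : List (Set (EuclideanSpace ℝ (Fin d)))) (v : EuclideanSpace ℝ (Fin d)) (c : ℝ)
      (hK : IterPart d K) (hK' : IterPart d K') (hv : v ≠ 0) :
      IterPart d (K.map (fun A => {x | inner ℝ v x ≤ c} ∩ A) ++
        K'.map (fun A => {x | c ≤ inner ℝ v x} ∩ A))

/-- Each part has, for each of the measures, the measure of the whole space divided by the number of parts. -/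
def Fair {d : ℕ} (μ : Fin d → Measure (EuclideanSpace ℝ (Fin d)))
    (L : List (Set (EuclideanSpace ℝ (Fin d)))) : Prop :=
  ∀ j, ∀ P ∈ L, μ j P = μ j Set.univ / (L.length : ENNReal)

/-- The sum over `i` of the Lebesgue measure of the plane restricted to the open unit disc with centre
`(x i, y i)`, multiplied by `w i`. -/
noncomputable def discs (x y : Fin 16 → ℤ) (w : Fin 16 → ℕ) : Measure (EuclideanSpace ℝ (Fin 2)) :=
  ∑ i, (w i : ENNReal) • volume.restrict (Metric.ball !₂[(x i : ℝ), (y i : ℝ)] 1)

open Pool.Agent.Lib.MP_f0067e_co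

theorem discs_eq (f : Fin 16 → ℕ) : discs cx cy f = mu f := rfl

/-- closed half-spaces on both sides may be replaced by a closed and an open one -/
theorem toPart {L : List (Set E)} (hL : IterPart 2 L) : ∀ A : Set E,
    ∃ L' : List (Set E), Part A L' ∧
      List.Forall₂ (fun P Q => (A ∩ P : Set E) =ᵐ[(volume : Measure E)] Q) L L' := by
  induction hL with
  | one =>
    intro A
    refine ⟨[A], Part.one A, ?_⟩
    refine List.Forall₂.cons ?_ List.Forall₂.nil
    rw [Set.inter_univ]
  | cut K K' v c hK hK' hv ih ih' =>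
    intro A
    obtain ⟨l₁, p₁, q₁⟩ := ih (A ∩ {x | inner ℝ v x ≤ c})
    obtain ⟨l₂, p₂, q₂⟩ := ih' (A ∩ {x | c < inner ℝ v x})
    refine ⟨l₁ ++ l₂, Part.cut A l₁ l₂ v c hv p₁ p₂, ?_⟩
    have hnull : volume {x : E | inner ℝ v x = c} = 0 := by
      have h1 := Measure.addHaar_affineSubspace (volume : Measure E)
        (AffineSubspace.mk' ((c / inner ℝ v v) • v) (LinearMap.ker (innerₛₗ ℝ v))) (by
          intro htop
          have h2 : ((c / inner ℝ v v) • v + v) ∈
              (AffineSubspace.mk' ((c / inner ℝ v v) • v) (LinearMap.ker (innerₛₗ ℝ v))) := by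
            rw [htop]; trivial
          rw [AffineSubspace.mem_mk'] at h2
          have h3 : inner ℝ v v = (0 : ℝ) := by
            have : ((c / inner ℝ v v) • v + v) -ᵥ ((c / inner ℝ v v) • v) = v := by
              rw [vsub_eq_sub, add_sub_cancel_left]
            rw [this] at h2
            exact h2
          exact hv (inner_self_eq_zero.mp h3))
      refine measure_mono_null ?_ h1
      intro x hx
      have hx' : inner ℝ v x = c := hx
      rw [SetLike.mem_coe, AffineSubspace.mem_mk']
      have hvv : (inner ℝ v v : ℝ) ≠ 0 := fun h => hv (inner_self_eq_zero.mp h)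
      have h4 : inner ℝ v (x - (c / inner ℝ v v) • v) = (0 : ℝ) := by
        rw [inner_sub_right, inner_smul_right, hx', div_mul_cancel₀ _ hvv, sub_self]
      exact h4
    have hae : ({x : E | c ≤ inner ℝ v x} : Set E) =ᵐ[(volume : Measure E)] {x | c < inner ℝ v x} := by
      rw [ae_eq_set]
      constructor
      · refine measure_mono_null ?_ hnull
        rintro x ⟨h1, h2⟩
        exact le_antisymm (not_lt.mp h2) h1
      · refine measure_mono_null ?_ (measure_empty (μ := (volume : Measure E)))
        rintro x ⟨h1, h2⟩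
        exact h2 (le_of_lt (show c < inner ℝ v x from h1))
    refine List.rel_append ?_ ?_
    · rw [List.forall₂_map_left_iff]
      refine q₁.imp ?_
      intro P Q h
      rwa [Set.inter_assoc] at h
    · rw [List.forall₂_map_left_iff]
      refine q₂.imp ?_
      intro P Q h
      rw [Set.inter_assoc] at h
      refine Filter.EventuallyEq.trans ?_ h
      exact (ae_eq_refl A).inter (hae.inter (ae_eq_refl P))

/-- **Two explicit measures on the plane without a fair iterated partition into six parts.** -/
theorem result :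
    let μ : Fin 2 → Measure (EuclideanSpace ℝ (Fin 2)) := ![
      discs ![-59, -53, 66, 25, -46, 99, 12, -65, -100, -100, 4, 100, 91, -53, 36, 6]
        ![11, 69, 48, 47, -5, -61, -27, -89, 35, 92, 11, 38, 98, -99, -100, -1]
        ![10, 9, 5, 9, 8, 9, 9, 7, 0, 0, 0, 0, 0, 0, 0, 0],
      discs ![-59, -53, 66, 25, -46, 99, 12, -65, -100, -100, 4, 100, 91, -53, 36, 6]
        ![11, 69, 48, 47, -5, -61, -27, -89, 35, 92, 11, 38, 98, -99, -100, -1]
        ![0, 0, 0, 0, 0, 0, 0, 0, 7, 8, 6, 8, 4, 5, 7, 21]]
    (∀ j, IsFiniteMeasure (μ j)) ∧ (∀ j, μ j Set.univ ≠ 0) ∧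
      (∀ j, μ j ≪ (volume : Measure (EuclideanSpace ℝ (Fin 2)))) ∧
      ∀ L : List (Set (EuclideanSpace ℝ (Fin 2))), IterPart 2 L → L.length = 6 → ¬ Fair μ L := by
  intro μ
  have hμ0 : μ 0 = mu wr := rfl
  have hμ1 : μ 1 = mu wb := rfl
  have hac : ∀ j, μ j ≪ (volume : Measure E) := by
    intro j
    fin_cases j
    · exact mu_ac wr
    · exact mu_ac wb
  have hfin : ∀ j, IsFiniteMeasure (μ j) := by
    intro j
    fin_cases j
    · exact mu_finite wr
    · exact mu_finite wb
  have hpos : ∀ f : Fin 16 → ℕ, (∑ i, f i) = 66 → mu f Set.univ ≠ 0 := by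
    intro f hf h
    have h1 := mu_toReal f Set.univ
    rw [h] at h1
    have h2 : mass f Set.univ = 66 * v := by
      unfold mass
      have h3 : ∀ i, m i (Set.univ : Set E) = v := fun i => m_full (Set.subset_univ _)
      simp only [h3]
      rw [← Finset.sum_mul]
      have e : ((∑ i, f i : ℕ) : ℝ) = 66 := by rw [hf]; norm_num
      push_cast at e
      rw [e]
    rw [h2] at h1
    have := v_pos
    simp only [ENNReal.toReal_zero] at h1
    linarith
  refine ⟨hfin, ?_, hac, ?_⟩
  · intro j
    fin_cases j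
    · exact hpos wr (by decide)
    · exact hpos wb (by decide)
  · intro L hL h6 hfair
    obtain ⟨L', hp, hq⟩ := toPart hL Set.univ
    have hlen : L'.length = 6 := hq.length_eq.symm.trans h6
    have hmass : ∀ j, ∀ Q ∈ L', μ j Q = μ j Set.univ / 6 := by
      intro j Q hQ
      obtain ⟨P, hP, hPQ⟩ : ∃ P ∈ L, (Set.univ ∩ P : Set E) =ᵐ[(volume : Measure E)] Q := by
        clear hlen hp hfair h6 hL
        induction hq with
        | nil => simp at hQ
        | cons h _ ih =>
          rcases List.mem_cons.mp hQ with rfl | hQ'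
          · exact ⟨_, List.mem_cons_self, h⟩
          · obtain ⟨P, hP, hPQ⟩ := ih hQ'
            exact ⟨P, List.mem_cons_of_mem _ hP, hPQ⟩
      rw [Set.univ_inter] at hPQ
      have h1 := hfair j P hP
      rw [h6] at h1
      have h2 : μ j P = μ j Q := measure_congr ((hac j).ae_eq hPQ)
      rw [← h2, h1]
      norm_num
    refine no_part hp hlen ?_ ?_
    · intro P hP Q hQ
      rw [← hμ0, hmass 0 P hP, hmass 0 Q hQ]
    · intro P hP Q hQ
      rw [← hμ1, hmass 1 P hP, hmass 1 Q hQ]

end Pool.Agent.Results.MP_f0067e_co.SixParts
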